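import Pool.Agent.W78.EG.Defs
import Pool.Agent.W78.GA.Basic
import Pool.Agent.W368.EC.Scnt

/-!
Subtask EG-SCNT: the number of the factorisations `d d' = n ^ 2 + t n + c` in a box.
-/

set_option autoImplicit false

namespace Pool.Agent.W883.EG

open Finset
open Pool.Agent.W78.GA (Qd nm lat nm_cast nm_mul)
open Pool.Agent.W78.EG

/-- triples -/
noncomputable def TT (s S : ℕ) : Finset (ℤ × ℤ × ℤ) :=
  (Icc (1 : ℤ) s).biUnion fun a => (Icc (-a) a).biUnion fun b =>
    ((Icc (-(S : ℤ)) S).filter (fun c => a ∣ b * c + 1)).image (fun c => (a, b, c))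

theorem TT_card (s S : ℕ) (hs : s ≤ S) (hS : 1 ≤ S) : ((TT s S).card : ℝ) ≤ 12 * s * S := by
  have hS' : (1 : ℝ) ≤ S := by exact_mod_cast hS
  have hs' : (s : ℝ) ≤ S := by exact_mod_cast hs
  have h1 : ((TT s S).card : ℝ) ≤ ∑ a ∈ Icc (1 : ℤ) s, (((Icc (-a) a).biUnion fun b =>
      ((Icc (-(S : ℤ)) S).filter (fun c => a ∣ b * c + 1)).image
        (fun c => (a, b, c))).card : ℝ) := by
    unfold TT
    exact_mod_cast card_biUnion_le
  refine h1.trans ?_
  have h2 : ∀ a ∈ Icc (1 : ℤ) s, (((Icc (-a) a).biUnion fun b =>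
      ((Icc (-(S : ℤ)) S).filter (fun c => a ∣ b * c + 1)).image
        (fun c => (a, b, c))).card : ℝ) ≤ 12 * S := by
    intro a ha
    rw [mem_Icc] at ha
    have ha0 : (0 : ℝ) < a := by exact_mod_cast (show (0 : ℤ) < a by omega)
    have ha1 : (1 : ℝ) ≤ a := by exact_mod_cast ha.1
    have haM : (a : ℝ) ≤ S := by
      have : (a : ℝ) ≤ s := by exact_mod_cast ha.2
      linarith
    have h3 : (((Icc (-a) a).biUnion fun b =>
      ((Icc (-(S : ℤ)) S).filter (fun c => a ∣ b * c + 1)).image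
        (fun c => (a, b, c))).card : ℝ) ≤ ∑ b ∈ Icc (-a) a, ((((Icc (-(S : ℤ)) S).filter
          (fun c => a ∣ b * c + 1)).image (fun c => (a, b, c))).card : ℝ) := by
      exact_mod_cast card_biUnion_le
    have h4 : ∀ b ∈ Icc (-a) a, ((((Icc (-(S : ℤ)) S).filter
          (fun c => a ∣ b * c + 1)).image (fun c => (a, b, c))).card : ℝ) ≤
          4 * S / a := by
      intro b _
      have h5 : ((((Icc (-(S : ℤ)) S).filter
          (fun c => a ∣ b * c + 1)).image (fun c => (a, b, c))).card : ℝ) ≤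
          (((Icc (-(S : ℤ)) S).filter (fun c => a ∣ b * c + 1)).card : ℝ) := by
        exact_mod_cast card_image_le
      refine h5.trans ((Pool.Agent.W368.EC.cnt (by omega) S).trans ?_)
      rw [div_add_one ha0.ne']
      refine div_le_div_of_nonneg_right ?_ ha0.le
      linarith
    refine h3.trans ((sum_le_sum h4).trans ?_)
    rw [sum_const, nsmul_eq_mul, Int.card_Icc]
    have h6 : (((a + 1 - -a).toNat : ℕ) : ℝ) = 2 * a + 1 := by
      have : (((a + 1 - -a).toNat : ℕ) : ℤ) = 2 * a + 1 := by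
        rw [Int.toNat_of_nonneg (by omega)]
        ring
      exact_mod_cast this
    rw [h6]
    rw [mul_div_assoc', div_le_iff₀ ha0]
    nlinarith
  refine (sum_le_sum h2).trans ?_
  rw [sum_const, nsmul_eq_mul, Int.card_Icc]
  have h7 : (((s : ℤ) + 1 - 1).toNat : ℝ) = s := by simp
  rw [h7]
  linarith

variable {t c : ℤ} {f : ℕ} {χ : DirichletCharacter ℂ f}

/-- the factorisations come from pairs of determinant one -/
theorem rep (hF : Fd t c f χ) {n d d' : ℕ} (hd : 1 ≤ d)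
    (h : (d * d' : ℤ) = (n : ℤ) ^ 2 + t * n + c) : ∃ x y u v : ℤ,
    x ^ 2 + t * x * y + c * y ^ 2 = d ∧ u ^ 2 - t * u * v + c * v ^ 2 = d' ∧
    x * v + y * u = 1 := by
  have hD : t ^ 2 < 4 * c := by
    have h1 := hF.disc
    have h2 := hF.three
    omega
  obtain ⟨z, hz, -, hz2⟩ := hF.red d (-(n : ℤ)) hd ⟨d', by rw [h]; ring⟩
  obtain ⟨w, hw⟩ := hz2 ⟨n, 1⟩ (by
    unfold lat
    simp)
  have him : z.re * w.im + z.im * (w.re + t * w.im) = 1 := by
    have := congrArg QuadraticAlgebra.im hw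
    rw [QuadraticAlgebra.im_mul] at this
    simp only at this
    rw [this]; ring
  have hzc := nm_cast hD z
  have hwc := nm_cast hD w
  have hnm : nm z * nm w = d * d' := by
    rw [← nm_mul, ← hw]
    have h1 := nm_cast hD (⟨n, 1⟩ : Qd t c)
    have h2 : (nm (⟨n, 1⟩ : Qd t c) : ℤ) = (d : ℤ) * d' := by
      rw [h1, h]
      simp
    exact_mod_cast h2
  have hw' : nm w = d' := by
    rw [hz] at hnm
    exact Nat.eq_of_mul_eq_mul_left hd hnm
  rw [hz] at hzc
  rw [hw'] at hwc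
  refine ⟨z.re, z.im, w.re + t * w.im, w.im, hzc.symm, ?_, him⟩
  rw [hwc]; ring

theorem bd (hF : Fd t c f χ) {x y : ℤ} {d m : ℕ}
    (h : x ^ 2 + t * x * y + c * y ^ 2 = d) (hm : d ≤ m) :
    x.natAbs ≤ Nat.sqrt (4 * c.natAbs * m) ∧ y.natAbs ≤ Nat.sqrt (4 * c.natAbs * m) := by
  have h1 := hF.disc
  have h2 := hF.three
  have hf : (3 : ℤ) ≤ f := by exact_mod_cast h2
  have hc : 1 ≤ c := by nlinarith [sq_nonneg t]
  have hm' : (d : ℤ) ≤ m := by exact_mod_cast hm
  have hd0 : (0 : ℤ) ≤ d := by positivity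
  constructor
  · rw [Nat.le_sqrt']
    have h3 : ((x.natAbs ^ 2 : ℕ) : ℤ) ≤ ((4 * c.natAbs * m : ℕ) : ℤ) := by
      push_cast
      rw [sq_abs, abs_of_pos (show 0 < c by omega)]
      have h4 : 4 * c * d = (2 * c * y + t * x) ^ 2 + f * x ^ 2 := by
        rw [← h]
        linear_combination x ^ 2 * h1
      have h5 : x ^ 2 ≤ f * x ^ 2 := by nlinarith [sq_nonneg x]
      have h6 : 4 * c * d ≤ 4 * c * m := by
        apply mul_le_mul_of_nonneg_left hm'
        omega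
      nlinarith [sq_nonneg (2 * c * y + t * x)]
    exact_mod_cast h3
  · rw [Nat.le_sqrt']
    have h3 : ((y.natAbs ^ 2 : ℕ) : ℤ) ≤ ((4 * c.natAbs * m : ℕ) : ℤ) := by
      push_cast
      rw [sq_abs, abs_of_pos (show 0 < c by omega)]
      have h4 : 4 * (d : ℤ) = (2 * x + t * y) ^ 2 + f * y ^ 2 := by
        rw [← h]
        linear_combination y ^ 2 * h1
      have h5 : y ^ 2 ≤ f * y ^ 2 := by nlinarith [sq_nonneg y]
      have h6 : (d : ℤ) ≤ c * m := by nlinarith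
      nlinarith [sq_nonneg (2 * x + t * y)]
    exact_mod_cast h3

theorem sgn {x y u v : ℤ} {d d' : ℕ}
    (h1 : x ^ 2 + t * x * y + c * y ^ 2 = d) (h2 : u ^ 2 - t * u * v + c * v ^ 2 = d')
    (h3 : x * v + y * u = 1) : ∃ x y u v : ℤ,
    x ^ 2 + t * x * y + c * y ^ 2 = d ∧ u ^ 2 - t * u * v + c * v ^ 2 = d' ∧
    x * v + y * u = 1 ∧ ((0 < x ∧ |y| ≤ x) ∨ (0 < y ∧ |x| ≤ y)) := by
  rcases le_total |y| |x| with h4 | h4
  · rcases lt_trichotomy x 0 with hx | hx | hx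
    · refine ⟨-x, -y, -u, -v, by linear_combination h1, by linear_combination h2,
        by linear_combination h3, Or.inl ⟨by omega, ?_⟩⟩
      rw [abs_neg]
      rwa [abs_of_neg hx] at h4
    · subst hx
      rw [abs_zero] at h4
      have hb : y = 0 := abs_eq_zero.1 (le_antisymm h4 (abs_nonneg y))
      subst hb
      norm_num at h3
    · refine ⟨x, y, u, v, h1, h2, h3, Or.inl ⟨hx, ?_⟩⟩
      rwa [abs_of_pos hx] at h4
  · rcases lt_trichotomy y 0 with hx | hx | hx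
    · refine ⟨-x, -y, -u, -v, by linear_combination h1, by linear_combination h2,
        by linear_combination h3, Or.inr ⟨by omega, ?_⟩⟩
      rw [abs_neg]
      rwa [abs_of_neg hx] at h4
    · subst hx
      rw [abs_zero] at h4
      have hb : x = 0 := abs_eq_zero.1 (le_antisymm h4 (abs_nonneg x))
      subst hb
      norm_num at h3
    · refine ⟨x, y, u, v, h1, h2, h3, Or.inr ⟨hx, ?_⟩⟩
      rwa [abs_of_pos hx] at h4

theorem mem_TT {s S : ℕ} {a b e g : ℤ} (ha : 0 < a) (hb : |b| ≤ a) (has : a.natAbs ≤ s)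
    (he : e.natAbs ≤ S) (h : a * g - b * e = 1) : (a, b, e) ∈ TT s S := by
  unfold TT
  rw [mem_biUnion]
  refine ⟨a, mem_Icc.2 ⟨by omega, by omega⟩, ?_⟩
  rw [mem_biUnion]
  refine ⟨b, mem_Icc.2 (abs_le.1 hb), ?_⟩
  rw [mem_image]
  refine ⟨e, mem_filter.2 ⟨mem_Icc.2 ⟨by omega, by omega⟩, ⟨g, by linear_combination -h⟩⟩, rfl⟩

open scoped Classical in
theorem scnt (hF : Fd t c f χ) : S_SCNT t c := by
  have hc : 1 ≤ c := by
    have h1 := hF.disc
    have h2 := hF.three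
    have hf : (3 : ℤ) ≤ f := by exact_mod_cast h2
    nlinarith [sq_nonneg t]
  refine ⟨24 * (4 * c.natAbs), fun m M hm hmM => ?_⟩
  set K : ℕ := 4 * c.natAbs with hK
  have hK1 : 1 ≤ K := by omega
  set s := Nat.sqrt (K * m) with hs
  set S := Nat.sqrt (K * M) with hS
  have hsS : s ≤ S := Nat.sqrt_le_sqrt (Nat.mul_le_mul_left K hmM)
  have hS1 : 1 ≤ S := by
    rw [hS, Nat.le_sqrt']
    nlinarith
  let φ : ℤ × ℤ × ℤ → ℕ × ℕ := fun q =>
    ((q.1 ^ 2 + t * q.1 * (-q.2.1) + c * (-q.2.1) ^ 2).toNat,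
    (q.2.2 ^ 2 - t * q.2.2 * ((q.2.1 * q.2.2 + 1) / q.1) +
      c * ((q.2.1 * q.2.2 + 1) / q.1) ^ 2).toNat)
  let ψ : ℤ × ℤ × ℤ → ℕ × ℕ := fun q =>
    (((-q.2.1) ^ 2 + t * (-q.2.1) * q.1 + c * q.1 ^ 2).toNat,
    (((q.2.1 * q.2.2 + 1) / q.1) ^ 2 - t * ((q.2.1 * q.2.2 + 1) / q.1) * q.2.2 +
      c * q.2.2 ^ 2).toNat)
  have hsub : ((Icc 1 m) ×ˢ (Icc 1 M)).filter (fun p => ∃ n : ℕ, 0 < 2 * (n : ℤ) + t ∧
      (p.1 * p.2 : ℤ) = (n : ℤ) ^ 2 + t * n + c) ⊆ (TT s S).image φ ∪ (TT s S).image ψ := by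
    rintro ⟨d, d'⟩ hp
    rw [mem_filter, mem_product, mem_Icc, mem_Icc] at hp
    obtain ⟨⟨⟨hd1, hdm⟩, -, hdM⟩, n, -, hn⟩ := hp
    obtain ⟨x0, y0, u0, v0, h1, h2, h3⟩ := rep hF hd1 hn
    obtain ⟨x, y, u, v, h1, h2, h3, h4⟩ := sgn h1 h2 h3
    obtain ⟨b1, b2⟩ := bd hF h1 hdm
    have h2' : u ^ 2 + t * u * (-v) + c * (-v) ^ 2 = d' := by rw [← h2]; ring
    obtain ⟨b3, b4⟩ := bd hF h2' hdM
    rw [Int.natAbs_neg] at b4
    rcases h4 with ⟨hx, hyx⟩ | ⟨hy, hxy⟩
    · apply mem_union_left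
      rw [mem_image]
      have h5 : x * v - (-y) * u = 1 := by linear_combination h3
      refine ⟨(x, -y, u), mem_TT hx (by rwa [abs_neg]) b1 b3 h5, ?_⟩
      have he : (-y * u + 1) / x = v := by
        have : -y * u + 1 = x * v := by linear_combination -h3
        rw [this]
        exact Int.mul_ediv_cancel_left _ hx.ne'
      change ((x ^ 2 + t * x * (- -y) + c * (- -y) ^ 2).toNat,
        (u ^ 2 - t * u * ((-y * u + 1) / x) + c * ((-y * u + 1) / x) ^ 2).toNat) = (d, d')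
      rw [he, neg_neg, h1, h2]
      simp
    · apply mem_union_right
      rw [mem_image]
      have h5 : y * u - (-x) * v = 1 := by linear_combination h3
      refine ⟨(y, -x, v), mem_TT hy (by rwa [abs_neg]) b2 b4 h5, ?_⟩
      have he : (-x * v + 1) / y = u := by
        have : -x * v + 1 = y * u := by linear_combination -h3
        rw [this]
        exact Int.mul_ediv_cancel_left _ hy.ne'
      change (((- -x) ^ 2 + t * (- -x) * y + c * y ^ 2).toNat,
        (((-x * v + 1) / y) ^ 2 - t * ((-x * v + 1) / y) * v + c * v ^ 2).toNat) = (d, d')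
      rw [he, neg_neg, h1, h2]
      simp
  have h8 : ((((Icc 1 m) ×ˢ (Icc 1 M)).filter
      (fun p => ∃ n : ℕ, 0 < 2 * (n : ℤ) + t ∧
      (p.1 * p.2 : ℤ) = (n : ℤ) ^ 2 + t * n + c)).card : ℝ) ≤ 2 * (TT s S).card := by
    have h9 := (card_le_card hsub).trans ((card_union_le _ _).trans
      (Nat.add_le_add card_image_le card_image_le))
    have h10 : (((TT s S).card + (TT s S).card : ℕ) : ℝ) = 2 * (TT s S).card := by
      push_cast; ring
    rw [← h10]
    exact_mod_cast h9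
  refine h8.trans ?_
  have h9 := TT_card s S hsS hS1
  have hsR : (s : ℝ) ≤ Real.sqrt (K * m) := by
    have : (s : ℝ) ≤ Real.sqrt ((K * m : ℕ) : ℝ) := Real.nat_sqrt_le_real_sqrt
    exact_mod_cast this
  have hSR : (S : ℝ) ≤ Real.sqrt (K * M) := by
    have : (S : ℝ) ≤ Real.sqrt ((K * M : ℕ) : ℝ) := Real.nat_sqrt_le_real_sqrt
    exact_mod_cast this
  have h10 : (s : ℝ) * S ≤ K * Real.sqrt (m * M) := by
    have h11 : Real.sqrt (K * m) * Real.sqrt (K * M) = K * Real.sqrt (m * M) := by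
      rw [← Real.sqrt_mul (by positivity)]
      have : (K : ℝ) * m * (K * M) = (K : ℝ) ^ 2 * (m * M) := by ring
      rw [this, Real.sqrt_mul (by positivity), Real.sqrt_sq (by positivity)]
    rw [← h11]
    exact mul_le_mul hsR hSR (by positivity) (by positivity)
  have hKr : (K : ℝ) = 4 * (c.natAbs : ℝ) := by rw [hK]; push_cast; ring
  rw [← hKr]
  nlinarith [h9, h10]

end Pool.Agent.W883.EG
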